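import Pool.Agent.H958R6.Final
import Pool.Agent.H246R3.KnightGe
import Pool.Agent.H948R3.KN_TaskGo
import Pool.Agent.H99R3.KnightSz
import Pool.Agent.H263R3.KN.Conv
import Pool.Agent.H224R3.KN.TaskW
import Pool.Agent.Helper923.KnightVO
import Pool.Agent.H318R3.Kn.VE

/-!
# Domino tilings of the Aztec diamond without a central knight's-move pair of squares

`Pool.Agent.Helper848.Domino` defines domino tilings of a finite set of cells and their number
`numTilings`; `Pool.Agent.H958R6.Defs` defines the region `knight n`, the Aztec diamond of order `n`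
without the unit squares with centres `(-1/2, -1/2)` and `(1/2, 3/2)`.

The number of domino tilings of `knight n` is computed for every `n ≥ 2`: with `b = binom(2j, j)`,

* `n = 4 j + 2`:  `(2 j + 1) b ^ 2 2 ^ (8 j ^ 2 + 6 j + 1)`;
* `n = 4 j - 1`:  `j b ^ 2 2 ^ (8 j ^ 2 - 6 j - 1)`;
* `n = 4 j`:      `j b ^ 2 (16 ^ j + b ^ 2) 2 ^ (8 j ^ 2 - 6 j - 1)`;
* `n = 4 j + 1`:  `(2 j + 1) b ^ 2 (16 ^ j - b ^ 2) 2 ^ (8 j ^ 2 - 2 j - 1)`

(`j ≥ 1` in the last three cases; they are stated with `j = k + 1`).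
-/

namespace Pool.Agent.Results.MP_b90a94_co.KnightsMove

open Pool.Agent.Helper848 H958R6

/-- The cells of `knight n`: the unit square `[p, p + 1] × [q, q + 1]` belongs to it if and only if
its centre `(x, y) = (p + 1/2, q + 1/2)` satisfies `|x| + |y| ≤ n` and is different from
`(-1/2, -1/2)` and `(1/2, 3/2)`. -/
theorem mem_knight (n : ℕ) (p q : ℤ) : (p, q) ∈ knight n ↔
    (|(p : ℝ) + 1 / 2| + |(q : ℝ) + 1 / 2| ≤ n ∧
      ((p : ℝ) + 1 / 2, (q : ℝ) + 1 / 2) ≠ (-1 / 2, -1 / 2) ∧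
      ((p : ℝ) + 1 / 2, (q : ℝ) + 1 / 2) ≠ (1 / 2, 3 / 2)) := by
  have key : |(p : ℝ) + 1 / 2| + |(q : ℝ) + 1 / 2| ≤ n ↔
      |2 * p + 1| + |2 * q + 1| ≤ 2 * (n : ℤ) := by
    have e : ∀ z : ℤ, |(z : ℝ) + 1 / 2| = ((|2 * z + 1| : ℤ) : ℝ) / 2 := by
      intro z
      rw [Int.cast_abs, show ((z : ℝ) + 1 / 2) = ((2 * z + 1 : ℤ) : ℝ) / 2 by push_cast; ring,
        abs_div, abs_of_pos (by norm_num : (0 : ℝ) < 2)]
    rw [e, e, ← add_div, div_le_iff₀ (by norm_num)]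
    have : (((|2 * p + 1| : ℤ) : ℝ) + ((|2 * q + 1| : ℤ) : ℝ) ≤ (n : ℝ) * 2) ↔
      ((|2 * p + 1| + |2 * q + 1| : ℤ) : ℝ) ≤ ((2 * (n : ℤ) : ℤ) : ℝ) := by
        push_cast
        rw [mul_comm (n : ℝ) 2]
    rw [this, Int.cast_le]
  have h1 : ((p : ℝ) + 1 / 2, (q : ℝ) + 1 / 2) = (-1 / 2, -1 / 2) ↔ (p, q) = (-1, -1) := by
    rw [Prod.mk.injEq, Prod.mk.injEq]
    constructor
    · rintro ⟨h, h'⟩
      constructor
      · have : (p : ℝ) = ((-1 : ℤ) : ℝ) := by push_cast; linarith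
        exact_mod_cast this
      · have : (q : ℝ) = ((-1 : ℤ) : ℝ) := by push_cast; linarith
        exact_mod_cast this
    · rintro ⟨rfl, rfl⟩
      constructor <;> norm_num
  have h2 : ((p : ℝ) + 1 / 2, (q : ℝ) + 1 / 2) = (1 / 2, 3 / 2) ↔ (p, q) = (0, 1) := by
    rw [Prod.mk.injEq, Prod.mk.injEq]
    constructor
    · rintro ⟨h, h'⟩
      constructor
      · have : (p : ℝ) = ((0 : ℤ) : ℝ) := by push_cast; linarith
        exact_mod_cast this
      · have : (q : ℝ) = ((1 : ℤ) : ℝ) := by push_cast; linarith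
        exact_mod_cast this
    · rintro ⟨rfl, rfl⟩
      constructor <;> norm_num
  rw [key, Ne, h1, Ne, h2]
  unfold knight aztec
  rw [Finset.mem_sdiff, Finset.mem_filter, Finset.mem_product, Finset.mem_Icc, Finset.mem_Icc,
    Finset.mem_insert, Finset.mem_singleton, not_or]
  constructor
  · rintro ⟨⟨-, h⟩, h'⟩
    exact ⟨h, h'⟩
  · rintro ⟨h, h'⟩
    refine ⟨⟨?_, h⟩, h'⟩
    rcases abs_cases (2 * p + 1) with h1 | h1 <;> rcases abs_cases (2 * q + 1) with h2 | h2 <;>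
      omega

/-- **The number of domino tilings of the Aztec diamond of order `n` without the unit squares with
centres `(-1/2, -1/2)` and `(1/2, 3/2)`, for every `n ≥ 2`.** -/
theorem result : ∀ k : ℕ,
    numTilings (knight (4 * k + 2)) =
      (2 * k + 1) * Nat.centralBinom k ^ 2 * 2 ^ (8 * k ^ 2 + 6 * k + 1) ∧
    numTilings (knight (4 * k + 3)) =
      (k + 1) * Nat.centralBinom (k + 1) ^ 2 * 2 ^ (8 * k ^ 2 + 10 * k + 1) ∧
    numTilings (knight (4 * k + 4)) =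
      (k + 1) * Nat.centralBinom (k + 1) ^ 2 * (16 ^ (k + 1) + Nat.centralBinom (k + 1) ^ 2) *
        2 ^ (8 * k ^ 2 + 10 * k + 1) ∧
    numTilings (knight (4 * k + 5)) =
      (2 * k + 3) * Nat.centralBinom (k + 1) ^ 2 * (16 ^ (k + 1) - Nat.centralBinom (k + 1) ^ 2) *
        2 ^ (8 * k ^ 2 + 14 * k + 5) := by
  intro k
  have hSz : TaskSz := Pool.Agent.H99R3.KnightSz.taskSz
  have hGe : TaskGe := Pool.Agent.H246R3.KnightGe.taskGe
  have hGo : TaskGo := Pool.Agent.H948R3.KN.taskGo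
  have hC : TaskConv := H263R3.KN.Conv.taskConv
  have hW : TaskW := Pool.Agent.H224R3.KN.taskW hC
  have hVO : TaskVO := Pool.Agent.Helper923.KnightVO.taskVO hSz
  have hVE : TaskVE := H958R6.taskVE hSz
  exact ⟨val2 hGe hVE hC hW k, val3 hGo hVO hC hW k, val4 hGe hVE hC hW k,
    val5 hGo hVO hC hW k⟩

end Pool.Agent.Results.MP_b90a94_co.KnightsMove
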